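import Mathlib

/-!
# One exceptional set
-/

set_option autoImplicit false

open Filter Topology

namespace Pool.Agent.K3h94.AT

theorem diag (x : ℕ → ℝ)
    (H : ∀ ε : ℝ, 0 < ε → ∃ C : ℝ, ∀ N : ℕ, 2 ≤ N →
      ({n | n ≤ N ∧ (1 ≤ n ∧ ε ≤ |x n - 1|)}.ncard : ℝ) ≤ C * Real.log N ^ 2) :
    ∃ Z : Set ℕ, (∀ δ : ℝ, 0 < δ → ∀ᶠ N : ℕ in atTop,
      ({n | n ∈ Z ∧ n ≤ N}.ncard : ℝ) ≤ Real.log N ^ (2 + δ)) ∧
      Tendsto x (atTop ⊓ 𝓟 Zᶜ) (𝓝 1) := by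
  have hC : ∀ k : ℕ, ∃ C : ℝ, ∀ N : ℕ, 2 ≤ N →
      ({n | n ≤ N ∧ (1 ≤ n ∧ 1 / ((k : ℝ) + 1) ≤ |x n - 1|)}.ncard : ℝ) ≤ C * Real.log N ^ 2 :=
    fun k => H _ (by positivity)
  choose C hC using hC
  have hlog : Tendsto (fun N : ℕ => Real.log N) atTop atTop :=
    Real.tendsto_log_atTop.comp tendsto_natCast_atTop_atTop
  have hM : ∀ k : ℕ, ∃ M : ℕ, ∀ N : ℕ, M ≤ N → 2 ≤ N ∧ 1 ≤ Real.log N ∧
      C k ≤ Real.log N ^ (1 / ((k : ℝ) + 1)) := by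
    intro k
    have h1 : Tendsto (fun N : ℕ => Real.log N ^ (1 / ((k : ℝ) + 1))) atTop atTop :=
      (tendsto_rpow_atTop (by positivity)).comp hlog
    obtain ⟨M, hM⟩ := eventually_atTop.1 ((eventually_ge_atTop 2).and
      ((hlog.eventually_ge_atTop 1).and (h1.eventually_ge_atTop (C k))))
    exact ⟨M, fun N hN => hM N hN⟩
  choose M hM using hM
  let κ : ℕ → ℕ := fun n => Nat.findGreatest (fun k => M k ≤ n) n
  have hκmono : ∀ n N : ℕ, n ≤ N → κ n ≤ κ N := fun n N h =>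
    Nat.findGreatest_mono (fun k hk => hk.trans h) h
  have hκbig : ∀ k n : ℕ, k ≤ n → M k ≤ n → k ≤ κ n := fun k n h1 h2 =>
    Nat.le_findGreatest h1 h2
  have hκM : ∀ n : ℕ, M 0 ≤ n → M (κ n) ≤ n := by
    intro n hn
    exact Nat.findGreatest_spec (P := fun k => M k ≤ n) (Nat.zero_le n) hn
  have hκtop : Tendsto κ atTop atTop := by
    rw [tendsto_atTop]
    intro k
    filter_upwards [eventually_ge_atTop (max k (M k))] with n hn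
    exact hκbig k n ((le_max_left _ _).trans hn) ((le_max_right _ _).trans hn)
  have hinv : Tendsto (fun n : ℕ => 1 / ((κ n : ℝ) + 1)) atTop (𝓝 0) :=
    tendsto_one_div_add_atTop_nhds_zero_nat.comp hκtop
  refine ⟨{n | 1 ≤ n ∧ 1 / ((κ n : ℝ) + 1) ≤ |x n - 1|}, ?_, ?_⟩
  · intro δ hδ
    have h1 : ∀ᶠ n : ℕ in atTop, 1 / ((κ n : ℝ) + 1) < δ := hinv.eventually_lt_const hδ
    filter_upwards [h1, eventually_ge_atTop (M 0)] with N h1 h2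
    obtain ⟨h3, h4, h5⟩ := hM (κ N) N (hκM N h2)
    have h6 : {n | n ∈ {n | 1 ≤ n ∧ 1 / ((κ n : ℝ) + 1) ≤ |x n - 1|} ∧ n ≤ N} ⊆
        {n | n ≤ N ∧ (1 ≤ n ∧ 1 / ((κ N : ℝ) + 1) ≤ |x n - 1|)} := by
      rintro n ⟨⟨h7, h8⟩, h9⟩
      refine ⟨h9, h7, le_trans ?_ h8⟩
      have h10 : (κ n : ℝ) ≤ κ N := by exact_mod_cast hκmono n N h9
      gcongr
    have hfin : {n | n ≤ N ∧ (1 ≤ n ∧ 1 / ((κ N : ℝ) + 1) ≤ |x n - 1|)}.Finite :=
      (Set.finite_Iic N).subset fun n hn => hn.1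
    have h11 := Set.ncard_le_ncard h6 hfin
    have h12 := hC (κ N) N h3
    have h13 : (0 : ℝ) < Real.log N := by linarith
    calc ({n | n ∈ {n | 1 ≤ n ∧ 1 / ((κ n : ℝ) + 1) ≤ |x n - 1|} ∧ n ≤ N}.ncard : ℝ) ≤
          ({n | n ≤ N ∧ (1 ≤ n ∧ 1 / ((κ N : ℝ) + 1) ≤ |x n - 1|)}.ncard : ℝ) := by
            exact_mod_cast h11
      _ ≤ C (κ N) * Real.log N ^ 2 := h12
      _ ≤ Real.log N ^ (1 / ((κ N : ℝ) + 1)) * Real.log N ^ 2 := by gcongr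
      _ ≤ Real.log N ^ δ * Real.log N ^ 2 := by
          gcongr
      _ = Real.log N ^ (2 + δ) := by
          rw [Real.rpow_add h13, mul_comm]
          norm_num
  · rw [Metric.tendsto_nhds]
    intro ε hε
    rw [eventually_inf_principal]
    have h1 : ∀ᶠ n : ℕ in atTop, 1 / ((κ n : ℝ) + 1) < ε := hinv.eventually_lt_const hε
    filter_upwards [h1, eventually_ge_atTop 1] with n h1 h2 h3
    rw [Real.dist_eq]
    by_contra hcon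
    exact h3 ⟨h2, by linarith [not_lt.1 hcon]⟩

end Pool.Agent.K3h94.AT
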