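import Pool.Agent.K3h94.AT.Stm

/-!
# The gap principle
-/

set_option autoImplicit false

open Finset Filter

namespace Pool.Agent.K3h94.AT

theorem norm_prod {ι : Type} (s : Finset ι) (f : ι → ℤ) :
    (∏ k ∈ s, (⟨1, f k⟩ : GaussianInt)).re ^ 2 + (∏ k ∈ s, (⟨1, f k⟩ : GaussianInt)).im ^ 2 =
      ∏ k ∈ s, (1 + f k ^ 2) := by
  have h1 : Zsqrtd.norm (∏ k ∈ s, (⟨1, f k⟩ : GaussianInt)) =
      ∏ k ∈ s, Zsqrtd.norm (⟨1, f k⟩ : GaussianInt) :=
    map_prod (Zsqrtd.normMonoidHom (d := -1)) _ _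
  have h2 : ∀ z : GaussianInt, Zsqrtd.norm z = z.re ^ 2 + z.im ^ 2 := by
    intro z
    rw [Zsqrtd.norm_def]
    ring
  rw [h2] at h1
  rw [h1]
  refine Finset.prod_congr rfl fun k _ => ?_
  rw [h2]
  ring

theorem P_add (n h : ℕ) : P (n + h) =
    P n * ∏ j ∈ range h, (⟨1, ((n + 1 + j : ℕ) : ℤ)⟩ : GaussianInt) := by
  rw [P, P, show n + h + 1 = (n + 1) + h by ring, Finset.prod_range_add]

theorem norm_P (n : ℕ) : (P n).re ^ 2 + (P n).im ^ 2 =
    ((∏ k ∈ range (n + 1), (1 + k ^ 2) : ℕ) : ℤ) := by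
  rw [P, norm_prod]
  push_cast
  rfl

theorem prodB_le (n h : ℕ) (hh : h ≤ n) (hn : 5 ≤ n) :
    (∏ j ∈ range h, (1 + (((n + 1 + j : ℕ) : ℤ)) ^ 2)) ≤ ((n : ℤ) ^ 3) ^ h := by
  have h1 : ∀ j ∈ range h, (1 + (((n + 1 + j : ℕ) : ℤ)) ^ 2) ≤ (n : ℤ) ^ 3 := by
    intro j hj
    have hj' : j < h := Finset.mem_range.1 hj
    have h2 : ((n + 1 + j : ℕ) : ℤ) ≤ 2 * n := by
      have : n + 1 + j ≤ 2 * n := by omega
      exact_mod_cast this
    have h3 : (0 : ℤ) ≤ ((n + 1 + j : ℕ) : ℤ) := Int.natCast_nonneg _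
    have h4 : (5 : ℤ) ≤ n := by exact_mod_cast hn
    have h5 : (((n + 1 + j : ℕ) : ℤ)) ^ 2 ≤ (2 * (n : ℤ)) ^ 2 := by gcongr
    nlinarith [mul_pos (show (0 : ℤ) < n by linarith) (show (0 : ℤ) < n by linarith)]
  calc (∏ j ∈ range h, (1 + (((n + 1 + j : ℕ) : ℤ)) ^ 2)) ≤ ∏ _j ∈ range h, (n : ℤ) ^ 3 :=
        Finset.prod_le_prod (fun j _ => by positivity) h1
    _ = ((n : ℤ) ^ 3) ^ h := by simp

/-- the arithmetic core -/
theorem core (hNZ : S_NZ) {p n h v : ℕ} (hp : p.Prime) (hh1 : 1 ≤ h) (hh : h ≤ n) (hn : 5 ≤ n)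
    (h1 : (p : ℤ) ^ v ∣ a n) (h2 : (p : ℤ) ^ v ∣ a (n + h))
    (hv : padicValNat p (∏ k ∈ range (n + 1), (1 + k ^ 2)) < 2 * v) :
    p ^ (2 * v) ≤ p ^ (padicValNat p (∏ k ∈ range (n + 1), (1 + k ^ 2))) * (n ^ 3) ^ h := by
  have := Fact.mk hp
  set T : ℕ := ∏ k ∈ range (n + 1), (1 + k ^ 2) with hT
  set τ := padicValNat p T with hτ
  have hT0 : T ≠ 0 := by
    rw [hT]
    exact Finset.prod_ne_zero_iff.2 fun k _ => by positivity
  set B : GaussianInt := ∏ j ∈ range h, (⟨1, ((n + 1 + j : ℕ) : ℤ)⟩ : GaussianInt) with hB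
  have hBim : B.im ≠ 0 := hNZ n h hh1 hh
  have hPm : a (n + h) = (P n).re * B.im + a n * B.re := by
    rw [a, P_add, a, ← hB, Zsqrtd.im_mul]
  have h3 : (p : ℤ) ^ v ∣ (P n).re * B.im := by
    have h4 : (P n).re * B.im = a (n + h) - a n * B.re := by rw [hPm]; ring
    rw [h4]
    exact dvd_sub h2 (Dvd.dvd.mul_right h1 _)
  have hN := norm_P n
  rw [← hT] at hN
  -- the valuation of the real part
  have h5 : ∀ w : ℕ, (p : ℤ) ^ w ∣ (P n).re → 2 * w ≤ τ := by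
    intro w hw
    by_contra hcon
    push Not at hcon
    have h6 : (p : ℤ) ^ (τ + 1) ∣ (P n).re ^ 2 := by
      refine (pow_dvd_pow (p : ℤ) (show τ + 1 ≤ w * 2 by omega)).trans ?_
      rw [pow_mul]
      exact pow_dvd_pow_of_dvd hw 2
    have h7 : (p : ℤ) ^ (τ + 1) ∣ (P n).im ^ 2 := by
      refine (pow_dvd_pow (p : ℤ) (show τ + 1 ≤ v * 2 by omega)).trans ?_
      rw [pow_mul]
      exact pow_dvd_pow_of_dvd h1 2
    have h8 : (p : ℤ) ^ (τ + 1) ∣ ((T : ℕ) : ℤ) := by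
      rw [← hN]
      exact dvd_add h6 h7
    have h9 : p ^ (τ + 1) ∣ T := by exact_mod_cast h8
    exact pow_succ_padicValNat_not_dvd hT0 h9
  have hr0 : (P n).re ≠ 0 := by
    intro h0
    have := h5 (τ + 1) (by rw [h0]; exact dvd_zero _)
    omega
  have h10 : v ≤ padicValInt p ((P n).re * B.im) := by
    have := (padicValInt_dvd_iff v ((P n).re * B.im)).1 h3
    rcases this with h | h
    · exact absurd h (mul_ne_zero hr0 hBim)
    · exact h
  rw [padicValInt.mul hr0 hBim] at h10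
  have h11 : 2 * padicValInt p (P n).re ≤ τ :=
    h5 _ ((padicValInt_dvd_iff _ _).2 (Or.inr le_rfl))
  have h12 : (p : ℤ) ^ (padicValInt p B.im) ∣ B.im := (padicValInt_dvd_iff _ _).2 (Or.inr le_rfl)
  have h13 : (p : ℤ) ^ (2 * padicValInt p B.im) ≤ B.im ^ 2 := by
    have h14 : (p : ℤ) ^ (2 * padicValInt p B.im) ∣ B.im ^ 2 := by
      rw [mul_comm, pow_mul]
      exact pow_dvd_pow_of_dvd h12 2
    exact Int.le_of_dvd (by positivity) h14
  have h15 : B.im ^ 2 ≤ ((n : ℤ) ^ 3) ^ h := by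
    have h16 := norm_prod (range h) (fun j => ((n + 1 + j : ℕ) : ℤ))
    have h17 := prodB_le n h hh hn
    rw [← hB] at h16
    nlinarith [sq_nonneg B.re]
  have h18 : (p : ℕ) ^ (2 * padicValInt p B.im) ≤ (n ^ 3) ^ h := by
    exact_mod_cast h13.trans h15
  calc p ^ (2 * v) ≤ p ^ (τ + 2 * padicValInt p B.im) :=
        Nat.pow_le_pow_right hp.pos (by omega)
    _ = p ^ τ * p ^ (2 * padicValInt p B.im) := pow_add _ _ _
    _ ≤ p ^ τ * (n ^ 3) ^ h := Nat.mul_le_mul_left _ h18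

theorem log_small (p : ℕ) (hp : p.Prime) (δ : ℝ) (hδ : 0 < δ) :
    ∀ᶠ n : ℕ in atTop, 1 + (Nat.log p (n ^ 2 + 1) : ℝ) ≤ δ * n := by
  have hp1 : 1 < (p : ℝ) := by exact_mod_cast hp.one_lt
  have hlp : 0 < Real.log p := Real.log_pos hp1
  have h1 : (fun x : ℝ => Real.log x) =o[atTop] fun x : ℝ => x := Real.isLittleO_log_id_atTop
  have h2 := (h1.comp_tendsto tendsto_natCast_atTop_atTop).def
    (show 0 < δ * Real.log p / 6 by positivity)
  have h3 : ∀ᶠ n : ℕ in atTop, 2 / δ ≤ (n : ℝ) :=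
    tendsto_natCast_atTop_atTop.eventually_ge_atTop _
  filter_upwards [h2, h3, eventually_ge_atTop 2] with n h2 h3 h4
  have hn : (2 : ℝ) ≤ n := by exact_mod_cast h4
  have h5 : (Nat.log p (n ^ 2 + 1) : ℝ) ≤ Real.log (n ^ 2 + 1) / Real.log p := by
    have := Real.natLog_le_logb (n ^ 2 + 1) p
    rw [Real.logb] at this
    push_cast at this
    exact this
  have h6 : Real.log ((n : ℝ) ^ 2 + 1) ≤ 3 * Real.log n := by
    have e : 3 * Real.log n = Real.log ((n : ℝ) ^ 3) := by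
      rw [Real.log_pow]
      push_cast
      ring
    rw [e]
    apply Real.log_le_log (by positivity)
    nlinarith [mul_nonneg (show (0 : ℝ) ≤ n by linarith) (show (0 : ℝ) ≤ (n : ℝ) by linarith)]
  have h7 : Real.log n ≤ δ * Real.log p / 6 * n := by
    simp only [Function.comp, Real.norm_eq_abs] at h2
    rw [abs_of_nonneg (Real.log_nonneg (by linarith)), abs_of_nonneg (by linarith)] at h2
    exact h2
  have h8 : Real.log (n ^ 2 + 1) / Real.log p ≤ δ / 2 * n := by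
    rw [div_le_iff₀ hlp]
    nlinarith
  have h9 : 1 ≤ δ / 2 * n := by
    rw [div_le_iff₀ hδ] at h3
    linarith
  linarith

theorem t_GAP : S_VAL → S_NZ → S_GAP := by
  intro hVAL hNZ p ε hp hp4 hε
  have hp1 : 1 < (p : ℝ) := by exact_mod_cast hp.one_lt
  have hpp : 0 < (p : ℝ) - 1 := by linarith
  have hlp : 0 < Real.log p := Real.log_pos hp1
  have hp2 : p ≠ 2 := by
    rintro rfl
    omega
  obtain ⟨n₀, hn₀⟩ := eventually_atTop.1 (log_small p hp (ε / (2 * ((p : ℝ) - 1))) (by positivity))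
  refine ⟨ε * Real.log p / (3 * ((p : ℝ) - 1)), max n₀ 5, by positivity, by
    exact le_trans (by norm_num) (le_max_right _ _), ?_⟩
  intro n m hn hnm hm hEn hEm
  have hn5 : 5 ≤ n := (le_max_right _ _).trans hn
  have hn0 := hn₀ n ((le_max_left _ _).trans hn)
  have hnR : (5 : ℝ) ≤ n := by exact_mod_cast hn5
  have hlogn : 0 < Real.log n := Real.log_pos (by linarith)
  obtain ⟨h, rfl⟩ : ∃ h, m = n + h := ⟨m - n, by omega⟩
  set v := ⌊(1 + ε) * n / ((p : ℝ) - 1)⌋₊ with hvdef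
  have hv1 : (v : ℝ) ≤ (1 + ε) * n / ((p : ℝ) - 1) := Nat.floor_le (by positivity)
  have hv2 : (1 + ε) * n / ((p : ℝ) - 1) < v + 1 := Nat.lt_floor_add_one _
  have hv3 : ((p : ℝ) - 1) * v ≤ (1 + ε) * n := by
    rw [le_div_iff₀ hpp] at hv1
    linarith
  have hd1 := hEn v hv3
  have hd2 := hEm v (hv3.trans (by push_cast; nlinarith [Nat.cast_nonneg (α := ℝ) h]))
  set τ := padicValNat p (∏ k ∈ range (n + 1), (1 + k ^ 2)) with hτ
  have hval : (τ : ℝ) ≤ 2 * n / ((p : ℝ) - 1) + 2 * (Nat.log p (n ^ 2 + 1) : ℝ) :=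
    hVAL p n hp hp2
  have hkey : ε / ((p : ℝ) - 1) * n ≤ 2 * v - τ := by
    have e1 : ε / (2 * ((p : ℝ) - 1)) * n = ε / ((p : ℝ) - 1) * n / 2 := by
      field_simp
    have e2 : (1 + ε) * n / ((p : ℝ) - 1) = n / ((p : ℝ) - 1) + ε / ((p : ℝ) - 1) * n := by
      field_simp
    have e3 : 2 * (n : ℝ) / ((p : ℝ) - 1) = 2 * (n / ((p : ℝ) - 1)) := by ring
    rw [e1] at hn0
    rw [e2] at hv2
    rw [e3] at hval
    linarith
  have hpos : 0 < ε / ((p : ℝ) - 1) * n := by positivity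
  have hlt : τ < 2 * v := by
    have : (τ : ℝ) < 2 * v := by linarith
    exact_mod_cast this
  have hcore := core hNZ hp (show 1 ≤ h by omega) (show h ≤ n by omega) hn5 hd1 hd2 hlt
  have hlog : (2 * v : ℝ) * Real.log p ≤ τ * Real.log p + 3 * h * Real.log n := by
    have g1 : ((p ^ (2 * v) : ℕ) : ℝ) ≤ ((p ^ τ * (n ^ 3) ^ h : ℕ) : ℝ) := by exact_mod_cast hcore
    push_cast at g1
    have g2 := Real.log_le_log (by positivity) g1
    rw [Real.log_mul (by positivity) (by positivity), Real.log_pow, Real.log_pow, Real.log_pow,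
      Real.log_pow] at g2
    push_cast at g2
    linarith
  have hfin : ε / ((p : ℝ) - 1) * n * Real.log p ≤ 3 * h * Real.log n := by
    have := mul_le_mul_of_nonneg_right hkey hlp.le
    linarith
  push_cast
  rw [add_sub_cancel_left, div_le_iff₀ hlogn]
  have e4 : ε * Real.log p / (3 * ((p : ℝ) - 1)) * n = ε / ((p : ℝ) - 1) * n * Real.log p / 3 := by
    field_simp
  rw [e4]
  linarith

end Pool.Agent.K3h94.AT
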