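import Pool.Agent.K3h94.AT.Gap

/-!
# Assembly: the limit holds outside a sparse set
-/

set_option autoImplicit false

open Finset Filter

namespace Pool.Agent.K3h94.AT

/-- the condition that `ν_p(a(n))` is not within `ε` of its expected size -/
def Exc (p : ℕ) (ε : ℝ) (n : ℕ) : Prop :=
  1 ≤ n ∧ ε ≤ |((p : ℝ) - 1) * (padicValInt p (a n) : ℝ) / n - 1|

theorem lower (hLOW : S_LOW) {p : ℕ} (hp : p.Prime) (hp4 : p % 4 = 1) (n : ℕ) (ha : a n ≠ 0) :
    (n : ℝ) + 1 - ((p : ℝ) - 1) * (Nat.log p (n + 1) + 1) ≤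
      ((p : ℝ) - 1) * (padicValInt p (a n) : ℝ) := by
  have := Fact.mk hp
  have hp1 : 1 < (p : ℝ) := by exact_mod_cast hp.one_lt
  obtain ⟨h1, h2⟩ := hLOW p n hp hp4
  refine h2.trans ?_
  have h3 : padicValNat p (n + 1).factorial ≤ padicValInt p (a n) := by
    rcases (padicValInt_dvd_iff _ _).1 h1 with h | h
    · exact absurd h ha
    · exact h
  have h4 : (padicValNat p (n + 1).factorial : ℝ) ≤ (padicValInt p (a n) : ℝ) := by
    exact_mod_cast h3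
  exact mul_le_mul_of_nonneg_left h4 (by linarith)

theorem high (hLOW : S_LOW) {p : ℕ} (hp : p.Prime) (hp4 : p % 4 = 1) {ε : ℝ} (hε : 0 < ε) :
    ∃ n₁ : ℕ, 1 ≤ n₁ ∧ ∀ n, n₁ ≤ n → Exc p ε n →
      ∀ v : ℕ, ((p : ℝ) - 1) * v ≤ (1 + ε) * n → (p : ℤ) ^ v ∣ a n := by
  have := Fact.mk hp
  have hp1 : 1 < (p : ℝ) := by exact_mod_cast hp.one_lt
  have hpp : 0 < (p : ℝ) - 1 := by linarith
  obtain ⟨n₀, hn₀⟩ := eventually_atTop.1 (log_small p hp (ε / ((p : ℝ) - 1)) (by positivity))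
  refine ⟨max n₀ 1, le_max_right _ _, ?_⟩
  rintro n hn ⟨hn1, hexc⟩ v hv
  by_cases ha : a n = 0
  · rw [ha]
    exact dvd_zero _
  have hn0 := hn₀ n ((le_max_left _ _).trans hn)
  have hnR : (1 : ℝ) ≤ n := by exact_mod_cast hn1
  have hlow := lower hLOW hp hp4 n ha
  have hlog : (Nat.log p (n + 1) : ℝ) ≤ (Nat.log p (n ^ 2 + 1) : ℝ) := by
    have : Nat.log p (n + 1) ≤ Nat.log p (n ^ 2 + 1) :=
      Nat.log_mono_right (by nlinarith)
    exact_mod_cast this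
  have h1 : ((p : ℝ) - 1) * (Nat.log p (n + 1) + 1) ≤ ε * n := by
    have h2 : (Nat.log p (n + 1) : ℝ) + 1 ≤ ε / ((p : ℝ) - 1) * n := by linarith
    calc ((p : ℝ) - 1) * (Nat.log p (n + 1) + 1) ≤ ((p : ℝ) - 1) * (ε / ((p : ℝ) - 1) * n) :=
          mul_le_mul_of_nonneg_left h2 hpp.le
      _ = ε * n := by field_simp
  have h3 : -ε < ((p : ℝ) - 1) * (padicValInt p (a n) : ℝ) / n - 1 := by
    have h4 : (1 - ε) * n < ((p : ℝ) - 1) * (padicValInt p (a n) : ℝ) := by linarith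
    have h5 : 1 - ε < ((p : ℝ) - 1) * (padicValInt p (a n) : ℝ) / n := by
      rw [lt_div_iff₀ (by linarith)]
      exact h4
    linarith
  have h6 : ε ≤ ((p : ℝ) - 1) * (padicValInt p (a n) : ℝ) / n - 1 := by
    rcases le_abs.1 hexc with h | h
    · exact h
    · linarith
  have h7 : (1 + ε) * n ≤ ((p : ℝ) - 1) * (padicValInt p (a n) : ℝ) := by
    have h8 : 1 + ε ≤ ((p : ℝ) - 1) * (padicValInt p (a n) : ℝ) / n := by linarith
    rwa [le_div_iff₀ (by linarith)] at h8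
  have h9 : (v : ℝ) ≤ (padicValInt p (a n) : ℝ) := by
    have := hv.trans h7
    exact le_of_mul_le_mul_left this hpp
  have h10 : v ≤ padicValInt p (a n) := by exact_mod_cast h9
  exact (padicValInt_dvd_iff _ _).2 (Or.inr h10)

theorem main (hLOW : S_LOW) (hVAL : S_VAL) (hNZ : S_NZ) (hCNT : S_CNT) (p : ℕ) (hp : p.Prime)
    (hp4 : p % 4 = 1) :
    (∀ n, (p : ℤ) ^ padicValNat p (n + 1).factorial ∣ a n) ∧
    (∀ n, a n ≠ 0 → (n : ℝ) + 1 - ((p : ℝ) - 1) * (Nat.log p (n + 1) + 1) ≤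
      ((p : ℝ) - 1) * (padicValInt p (a n) : ℝ)) ∧
    ∀ ε : ℝ, 0 < ε →
      (∃ (c : ℝ) (n₀ : ℕ), 0 < c ∧ ∀ n m : ℕ, n₀ ≤ n → n < m → Exc p ε n → Exc p ε m →
        c * n / Real.log n ≤ (m : ℝ) - n) ∧
      ∃ C : ℝ, ∀ N : ℕ, 2 ≤ N → ({n | n ≤ N ∧ Exc p ε n}.ncard : ℝ) ≤ C * Real.log N ^ 2 := by
  refine ⟨fun n => (hLOW p n hp hp4).1, fun n ha => lower hLOW hp hp4 n ha, fun ε hε => ?_⟩
  obtain ⟨n₁, hn₁, hhigh⟩ := high hLOW hp hp4 hε
  obtain ⟨c, n₀, hc, hn₀, hgap⟩ := t_GAP hVAL hNZ p ε hp hp4 hε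
  constructor
  · refine ⟨min c (1 / 2), max (max n₁ n₀) 3, lt_min hc (by norm_num), ?_⟩
    intro n m hn hnm hEn hEm
    have hn3 : 3 ≤ n := (le_max_right _ _).trans hn
    have hn1 : n₁ ≤ n := (le_max_left _ _).trans ((le_max_left _ _).trans hn)
    have hn0 : n₀ ≤ n := (le_max_right _ _).trans ((le_max_left _ _).trans hn)
    have hnR : (3 : ℝ) ≤ n := by exact_mod_cast hn3
    have hlog : 1 / 2 ≤ Real.log n := by
      have h1 : Real.log 2 ≤ Real.log n := Real.log_le_log (by norm_num) (by linarith)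
      have := Real.log_two_gt_d9
      linarith
    have hlog0 : 0 < Real.log n := by linarith
    rcases le_or_gt m (2 * n) with hm | hm
    · have h1 := hgap n m hn0 hnm hm (hhigh n hn1 hEn) (hhigh m (hn1.trans hnm.le) hEm)
      refine le_trans ?_ h1
      have : min c (1 / 2) ≤ c := min_le_left _ _
      gcongr
    · have h2 : (n : ℝ) ≤ (m : ℝ) - n := by
        have : n + n ≤ m := by omega
        have h3 : (n : ℝ) + n ≤ m := by exact_mod_cast this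
        linarith
      refine le_trans ?_ h2
      rw [div_le_iff₀ hlog0]
      have h4 : min c (1 / 2) ≤ 1 / 2 := min_le_right _ _
      have h5 : min c (1 / 2) * n ≤ 1 / 2 * n := mul_le_mul_of_nonneg_right h4 (by linarith)
      nlinarith
  · set E : Set ℕ := {n | ∀ v : ℕ, ((p : ℝ) - 1) * v ≤ (1 + ε) * n → (p : ℤ) ^ v ∣ a n} with hE
    obtain ⟨C, hC⟩ := hCNT E c n₀ hc hn₀ (fun n m h1 h2 h3 h4 h5 => hgap n m h1 h2 h3 h4 h5)
    refine ⟨C + n₁ / Real.log 2 ^ 2, fun N hN => ?_⟩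
    have hNR : (2 : ℝ) ≤ N := by exact_mod_cast hN
    have hl2 : 0 < Real.log 2 := Real.log_pos (by norm_num)
    have hlN : Real.log 2 ≤ Real.log N := Real.log_le_log (by norm_num) hNR
    have hfin : {n | n ∈ E ∧ n ≤ N}.Finite := (Set.finite_Iic N).subset fun n hn => hn.2
    have hsub : {n | n ≤ N ∧ Exc p ε n} ⊆ {n | n ∈ E ∧ n ≤ N} ∪ Set.Iio n₁ := by
      rintro n ⟨h1, h2⟩
      rcases lt_or_ge n n₁ with h | h
      · exact Or.inr h
      · exact Or.inl ⟨hhigh n h h2, h1⟩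
    have h1 : {n | n ≤ N ∧ Exc p ε n}.ncard ≤ {n | n ∈ E ∧ n ≤ N}.ncard + n₁ := by
      refine (Set.ncard_le_ncard hsub (hfin.union (Set.finite_Iio _))).trans ?_
      refine (Set.ncard_union_le _ _).trans ?_
      have : (Set.Iio n₁).ncard = n₁ := by
        rw [Set.ncard_eq_toFinset_card']
        simp
      rw [this]
    have h2 : ({n | n ≤ N ∧ Exc p ε n}.ncard : ℝ) ≤ ({n | n ∈ E ∧ n ≤ N}.ncard : ℝ) + n₁ := by
      exact_mod_cast h1
    have h3 : (n₁ : ℝ) ≤ n₁ / Real.log 2 ^ 2 * Real.log N ^ 2 := by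
      rw [div_mul_eq_mul_div, le_div_iff₀ (by positivity)]
      have : Real.log 2 ^ 2 ≤ Real.log N ^ 2 := by gcongr
      exact mul_le_mul_of_nonneg_left this (Nat.cast_nonneg _)
    have h4 := hC N hN
    linarith

end Pool.Agent.K3h94.AT
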