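import Mathlib

/-!
# Imaginary parts of `∏ (1 + k i)`: definitions and statements (helper94, MP_054fa1_nt)
-/

set_option autoImplicit false

open Finset

namespace Pool.Agent.K3h94.AT

/-- `∏_{k=0}^n (1 + k i)` -/
def P (n : ℕ) : GaussianInt := ∏ k ∈ range (n + 1), (⟨1, (k : ℤ)⟩ : GaussianInt)

/-- `a(n) = Im ∏_{k=0}^n (1 + k i)` -/
def a (n : ℕ) : ℤ := (P n).im

/-- LOW: the `p`-part of `(n+1)!` divides `a(n)`. -/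
def S_LOW : Prop := ∀ p n : ℕ, p.Prime → p % 4 = 1 →
  (p : ℤ) ^ padicValNat p (n + 1).factorial ∣ a n ∧
  (n : ℝ) + 1 - ((p : ℝ) - 1) * (Nat.log p (n + 1) + 1) ≤
    ((p : ℝ) - 1) * (padicValNat p (n + 1).factorial : ℝ)

/-- VAL: the valuation of `∏ (1 + k²)`. -/
def S_VAL : Prop := ∀ p n : ℕ, p.Prime → p ≠ 2 →
  (padicValNat p (∏ k ∈ range (n + 1), (1 + k ^ 2)) : ℝ) ≤
    2 * n / ((p : ℝ) - 1) + 2 * (Nat.log p (n ^ 2 + 1) : ℝ)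

/-- NZ: short products are not real. -/
def S_NZ : Prop := ∀ n h : ℕ, 1 ≤ h → h ≤ n →
  (∏ j ∈ range h, (⟨1, ((n + 1 + j : ℕ) : ℤ)⟩ : GaussianInt)).im ≠ 0

/-- CNT: counting with gaps. -/
def S_CNT : Prop := ∀ (E : Set ℕ) (c : ℝ) (n₀ : ℕ), 0 < c → 2 ≤ n₀ →
  (∀ n m : ℕ, n₀ ≤ n → n < m → m ≤ 2 * n → n ∈ E → m ∈ E →
    c * n / Real.log n ≤ (m : ℝ) - n) →
  ∃ C : ℝ, ∀ N : ℕ, 2 ≤ N → ({n | n ∈ E ∧ n ≤ N}.ncard : ℝ) ≤ C * Real.log N ^ 2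

/-- GAP: the gap principle. -/
def S_GAP : Prop := ∀ (p : ℕ) (ε : ℝ), p.Prime → p % 4 = 1 → 0 < ε → ∃ (c : ℝ) (n₀ : ℕ), 0 < c ∧ 2 ≤ n₀ ∧
  ∀ n m : ℕ, n₀ ≤ n → n < m → m ≤ 2 * n →
    (∀ v : ℕ, ((p : ℝ) - 1) * v ≤ (1 + ε) * n → (p : ℤ) ^ v ∣ a n) →
    (∀ v : ℕ, ((p : ℝ) - 1) * v ≤ (1 + ε) * m → (p : ℤ) ^ v ∣ a m) →
    c * n / Real.log n ≤ (m : ℝ) - n

end Pool.Agent.K3h94.AT
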